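import Pool.Agent.H.MP_c40ba2_an.D

set_option autoImplicit false

namespace Pool.Agent.Results.MP_c40ba2_an.Normal
open Metric Filter

noncomputable def coeff (f : ℂ → ℂ) (n : ℕ) : ℂ := iteratedDeriv n f 0 / n.factorial

noncomputable def hadamard (f g : ℂ → ℂ) (z : ℂ) : ℂ := ∑' n, coeff f n * coeff g n * z ^ n

def InT (α β : ℝ) (φ : ℂ → ℂ) : Prop :=
  DifferentiableOn ℂ φ (ball 0 1) ∧ φ 0 = 1 ∧
    ∀ x : ℂ, ‖x‖ = 1 → ∀ z ∈ ball (0:ℂ) 1,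
      hadamard φ (fun u => (1 + x * u) ^ (α:ℂ) / (1 - u) ^ (β:ℂ)) z ≠ 0

theorem result (α β : ℝ) (hα : 1 ≤ α) (hβ : 1 ≤ β) (φ : ℕ → ℂ → ℂ) (hφ : ∀ k, InT α β (φ k)) :
    ∃ (s : ℕ → ℕ) (g : ℂ → ℂ), StrictMono s ∧
      TendstoLocallyUniformlyOn (fun k => φ (s k)) g atTop (ball 0 1) := by
  refine Pool.Agent.H.MP_c40ba2_an.normal φ (fun k => (hφ k).1) fun r h0 h1 => ?_
  obtain ⟨C, hC⟩ := Pool.Agent.H.MP_c40ba2_an.coef2 α β hα hβ r h0 h1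
  exact ⟨C, fun k n => hC (φ k) (hφ k).1 (hφ k).2.1 (hφ k).2.2 n⟩

end Pool.Agent.Results.MP_c40ba2_an.Normal
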